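import Pool.Agent.W2helper36.EM.D

/-!
# All even moments of the Benjamini–Schramm limits of eigenfunctions (MP_4fa179_mp)

Every Benjamini–Schramm limit of Laplace eigenfunctions of a compact Riemannian manifold of
dimension `d`, rescaled to eigenvalue `1`, is a translation invariant law on the space of smooth
solutions of `Δf + f = 0` on `ℝ^d`. The theorem is about all such laws, for all `d ≥ 1` and `k ≥ 2`,
with `∫ f(0)^{2k} dμ < ∞`. Let `m` be the local mass (the conditional expectation of `f(0)²` given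
the translation invariant sets), `P = f² + |∇f|²` the energy and `c_k = binom(2k,k)/4^k` the mean
of `cos^{2k}`. Then
`E f(0)^{2k} ≥ c_k (E P^k + (3/8)(k-1) E P^{k-2}|∇P|²)`, `E P^k ≥ 2^k E m^k`,
and `E f(0)^{2k} = 2^k c_k E m^k` exactly for random plane waves `a cos (⟨w, x⟩ + φ)`. For the
random wave of Berry's conjecture (`m = 1`) the moment is `(2k-1)!! = 2^k c_k k!`.

Idea of the proof. There is a vector field `V = A ∇f + B ∇P`, with `A`, `B` polynomials in
`f` and `P`, whose divergence is `f^{2k} - c_k P^k` for plane waves; stationarity gives `E div V = 0`.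
The one remaining term is controlled by `|∇f|² ΔP ≥ |∇P|²/2 - 2 f ∇f·∇P` (Cauchy–Schwarz for
`Hess f ∇f`), and the signs of the coefficients work out for every `k`.
-/

set_option autoImplicit false
open MeasureTheory Filter Topology
open scoped ContDiff ENNReal

namespace Pool.Agent.Results.MP_4fa179_mp.AllEvenMoments

noncomputable section

/-- the Laplacian `∑ ∂_i²` of `ℝ^d` -/
def laplacian {d : ℕ} (f : EuclideanSpace ℝ (Fin d) → ℝ) (y : EuclideanSpace ℝ (Fin d)) : ℝ :=
  ∑ i, fderiv ℝ (fun z => fderiv ℝ f z (EuclideanSpace.single i 1)) y (EuclideanSpace.single i 1)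

/-- The space of all smooth `f` on `ℝ^d` with `Δf = -f`. Its σ-algebra is generated by the
evaluations `f ↦ f y`. -/
abbrev Wave (d : ℕ) : Type :=
  {f : EuclideanSpace ℝ (Fin d) → ℝ // ContDiff ℝ ∞ f ∧ ∀ y, laplacian f y = -f y}

/-- the translate `y ↦ f (y + x)` -/
def translate {d : ℕ} (x : EuclideanSpace ℝ (Fin d)) (f : Wave d) : Wave d :=
  ⟨fun y => f.1 (y + x), (Pool.Agent.Y139.SW.sh x f).2⟩

/-- the σ-algebra of the translation invariant measurable sets -/
@[reducible] def invariantSets (d : ℕ) : MeasurableSpace (Wave d) where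
  MeasurableSet' A := MeasurableSet A ∧ ∀ x, translate x ⁻¹' A = A
  measurableSet_empty := ⟨MeasurableSet.empty, fun _ => Set.preimage_empty⟩
  measurableSet_compl A hA := ⟨hA.1.compl, fun x => by rw [Set.preimage_compl, hA.2 x]⟩
  measurableSet_iUnion A hA := ⟨MeasurableSet.iUnion fun i => (hA i).1, fun x => by
    rw [Set.preimage_iUnion]
    exact Set.iUnion_congr fun i => (hA i).2 x⟩

/-- the value at the origin -/
def val {d : ℕ} (f : Wave d) : ℝ := f.1 0

/-- the energy density `f² + |∇f|²` at `y` -/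
def energy {d : ℕ} (f : EuclideanSpace ℝ (Fin d) → ℝ) (y : EuclideanSpace ℝ (Fin d)) : ℝ :=
  f y ^ 2 + ∑ i, fderiv ℝ f y (EuclideanSpace.single i 1) ^ 2

/-- the energy density `P = f² + |∇f|²` at the origin -/
def en {d : ℕ} (f : Wave d) : ℝ := energy f.1 0

/-- `|∇P|²` at the origin -/
def gradEnSq {d : ℕ} (f : Wave d) : ℝ :=
  ∑ i, fderiv ℝ (energy f.1) 0 (EuclideanSpace.single i 1) ^ 2

/-- the local mass: the conditional expectation of `f(0)²` given the translation invariant sets -/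
def mass {d : ℕ} (μ : Measure (Wave d)) : Wave d → ℝ := μ[fun f => val f ^ 2 | invariantSets d]

/-- the expectation of `g` -/
def ex {d : ℕ} (μ : Measure (Wave d)) (g : Wave d → ℝ) : ℝ := ∫ f, g f ∂μ

/-- `f` is a plane wave `a cos (⟨w, y⟩ + φ)` with `|w| = 1` -/
def IsPlaneWave {d : ℕ} (a : ℝ) (f : Wave d) : Prop :=
  ∃ (w : EuclideanSpace ℝ (Fin d)) (φ : ℝ), ‖w‖ = 1 ∧
    ∀ y, f.1 y = a * Real.cos (inner ℝ w y + φ)

/-- **All even moments of stationary waves in `ℝ^d`.** -/
theorem result {d : ℕ} (hd : 1 ≤ d) (μ : Measure (Wave d)) [hP : IsProbabilityMeasure μ]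
    (hμ : ∀ x, μ.map (translate x) = μ) {k : ℕ} (hk : 2 ≤ k)
    (h : Integrable (fun f => val f ^ (2 * k)) μ) :
    (Integrable (fun f => mass μ f ^ k) μ ∧ Integrable (fun f => en f ^ k) μ ∧
      Integrable (fun f => en f ^ (k - 2) * gradEnSq f) μ) ∧
    (k.centralBinom : ℝ) / 4 ^ k * (ex μ (fun f => en f ^ k) +
      3 / 8 * (k - 1) * ex μ (fun f => en f ^ (k - 2) * gradEnSq f)) ≤
        ex μ (fun f => val f ^ (2 * k)) ∧
    2 ^ k * ex μ (fun f => mass μ f ^ k) ≤ ex μ (fun f => en f ^ k) ∧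
    ex μ (fun f => val f ^ 2) ^ k ≤ ex μ (fun f => mass μ f ^ k) ∧
    (ex μ (fun f => val f ^ (2 * k)) =
      (k.centralBinom : ℝ) / 2 ^ k * ex μ (fun f => mass μ f ^ k) ↔
        ∀ᵐ f ∂μ, ∃ a, IsPlaneWave a f) ∧
    (ex μ (fun f => val f ^ (2 * k)) =
      (k.centralBinom : ℝ) / 2 ^ k * ex μ (fun f => val f ^ 2) ^ k ↔
        ∀ᵐ f ∂μ, IsPlaneWave (√(2 * ex μ (fun f => val f ^ 2))) f) := by
  exact Pool.Agent.W2helper36.EM.final hd μ hP hμ hk h

end

end Pool.Agent.Results.MP_4fa179_mp.AllEvenMoments
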