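import Pool.Agent.W2helper36.EM.K

/-!
# The first absolute moment of the Benjamini–Schramm limits of eigenfunctions (MP_4fa179_mp)

Every Benjamini–Schramm limit of Laplace eigenfunctions of a compact Riemannian manifold of
dimension `d`, rescaled to eigenvalue `1`, is a translation invariant law on the space of smooth
solutions of `Δf + f = 0` on `ℝ^d`. The theorem is about all such laws, for all `d ≥ 1`, with
`∫ f(0)² dμ < ∞`. Let `m` be the local mass (the conditional expectation of `f(0)²` given the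
translation invariant sets) and `P = f² + |∇f|²` the energy. Then
`(π/2) E |f(0)| + (1/16) E f² |∇P|² P^{-5/2} ≤ E √P ≤ E √(2m) ≤ √(2 E f(0)²)`,
and `(π/2) E |f(0)| = E √(2m)` exactly for random plane waves `a cos (⟨w, x⟩ + φ)`: among all laws
with given local mass, plane waves have the largest first moment. (For the random wave of Berry's
conjecture, `m = 1` and `(π/2) E |f(0)| = √(π/2) = 1.2533 < √2`.)

Idea of the proof. With `f = √P cos φ`, `|∇f| = √P sin φ`, the field
`V = sgn f (π/2 - φ / sin φ) ∇f + P^{-1/2} k(φ) ∇P`, `8 k = (φ² + 2 φ sin φ cos φ - 3 sin² φ) / sin² φ`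
has divergence `√P - (π/2)|f|` for plane waves, and `k ≤ 0`. Stationarity gives `E div V = 0`; the
term with `ΔP` is controlled by `|∇f|² ΔP ≥ |∇P|²/2 - 2 f ∇f·∇P`, and then the coefficient of
`|∇P|²` is at most `-f² P^{-5/2} / 16`. In the proof `P` is replaced by `P + ε²`, `ε → 0`.
-/

set_option autoImplicit false
open MeasureTheory Filter Topology
open scoped ContDiff ENNReal

namespace Pool.Agent.Results.MP_4fa179_mp.FirstMoment

noncomputable section

/-- the Laplacian `∑ ∂_i²` of `ℝ^d` -/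
def laplacian {d : ℕ} (f : EuclideanSpace ℝ (Fin d) → ℝ) (y : EuclideanSpace ℝ (Fin d)) : ℝ :=
  ∑ i, fderiv ℝ (fun z => fderiv ℝ f z (EuclideanSpace.single i 1)) y (EuclideanSpace.single i 1)

/-- The space of all smooth `f` on `ℝ^d` with `Δf = -f`. Its σ-algebra is generated by the
evaluations `f ↦ f y`. -/
abbrev Wave (d : ℕ) : Type :=
  {f : EuclideanSpace ℝ (Fin d) → ℝ // ContDiff ℝ ∞ f ∧ ∀ y, laplacian f y = -f y}

/-- the translate `y ↦ f (y + x)` -/
def translate {d : ℕ} (x : EuclideanSpace ℝ (Fin d)) (f : Wave d) : Wave d :=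
  ⟨fun y => f.1 (y + x), (Pool.Agent.Y139.SW.sh x f).2⟩

/-- the σ-algebra of the translation invariant measurable sets -/
@[reducible] def invariantSets (d : ℕ) : MeasurableSpace (Wave d) where
  MeasurableSet' A := MeasurableSet A ∧ ∀ x, translate x ⁻¹' A = A
  measurableSet_empty := ⟨MeasurableSet.empty, fun _ => Set.preimage_empty⟩
  measurableSet_compl A hA := ⟨hA.1.compl, fun x => by rw [Set.preimage_compl, hA.2 x]⟩
  measurableSet_iUnion A hA := ⟨MeasurableSet.iUnion fun i => (hA i).1, fun x => by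
    rw [Set.preimage_iUnion]
    exact Set.iUnion_congr fun i => (hA i).2 x⟩

/-- the value at the origin -/
def val {d : ℕ} (f : Wave d) : ℝ := f.1 0

/-- the energy density `f² + |∇f|²` at `y` -/
def energy {d : ℕ} (f : EuclideanSpace ℝ (Fin d) → ℝ) (y : EuclideanSpace ℝ (Fin d)) : ℝ :=
  f y ^ 2 + ∑ i, fderiv ℝ f y (EuclideanSpace.single i 1) ^ 2

/-- the energy density `P = f² + |∇f|²` at the origin -/
def en {d : ℕ} (f : Wave d) : ℝ := energy f.1 0

/-- `|∇P|²` at the origin -/
def gradEnSq {d : ℕ} (f : Wave d) : ℝ :=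
  ∑ i, fderiv ℝ (energy f.1) 0 (EuclideanSpace.single i 1) ^ 2

/-- the local mass: the conditional expectation of `f(0)²` given the translation invariant sets -/
def mass {d : ℕ} (μ : Measure (Wave d)) : Wave d → ℝ := μ[fun f => val f ^ 2 | invariantSets d]

/-- the expectation of `g` -/
def ex {d : ℕ} (μ : Measure (Wave d)) (g : Wave d → ℝ) : ℝ := ∫ f, g f ∂μ

/-- `f` is a plane wave `a cos (⟨w, y⟩ + φ)` with `|w| = 1` -/
def IsPlaneWave {d : ℕ} (a : ℝ) (f : Wave d) : Prop :=
  ∃ (w : EuclideanSpace ℝ (Fin d)) (φ : ℝ), ‖w‖ = 1 ∧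
    ∀ y, f.1 y = a * Real.cos (inner ℝ w y + φ)

/-- **The first absolute moment of stationary waves in `ℝ^d`.** -/
theorem result {d : ℕ} (hd : 1 ≤ d) (μ : Measure (Wave d)) [hP : IsProbabilityMeasure μ]
    (hμ : ∀ x, μ.map (translate x) = μ) (h : Integrable (fun f => val f ^ 2) μ) :
    (Integrable (fun f => √(en f)) μ ∧
      Integrable (fun f => val f ^ 2 * gradEnSq f / √(en f) ^ 5) μ) ∧
    Real.pi / 2 * ex μ (fun f => |val f|) +
      1 / 16 * ex μ (fun f => val f ^ 2 * gradEnSq f / √(en f) ^ 5) ≤ ex μ (fun f => √(en f)) ∧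
    ex μ (fun f => √(en f)) ≤ ex μ (fun f => √(2 * mass μ f)) ∧
    ex μ (fun f => √(2 * mass μ f)) ≤ √(2 * ex μ (fun f => val f ^ 2)) ∧
    (Real.pi / 2 * ex μ (fun f => |val f|) = ex μ (fun f => √(2 * mass μ f)) ↔
      ∀ᵐ f ∂μ, ∃ a, IsPlaneWave a f) ∧
    (Real.pi / 2 * ex μ (fun f => |val f|) = √(2 * ex μ (fun f => val f ^ 2)) ↔
      ∀ᵐ f ∂μ, IsPlaneWave (√(2 * ex μ (fun f => val f ^ 2))) f) := by
  exact Pool.Agent.W2helper36.EM.final1 hd μ hP hμ h

end

end Pool.Agent.Results.MP_4fa179_mp.FirstMoment
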