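import Pool.Agent.W2helper14.EM.N

/-!
# Polynomials of stationary waves and the moment matrix (MP_4fa179_mp)

Every Benjamini–Schramm limit of Laplace eigenfunctions of a compact Riemannian manifold of
dimension `d`, rescaled to eigenvalue `1`, is a translation invariant law on the space of smooth
solutions of `Δf + f = 0` on `ℝ^d`. The theorem is about all such laws, for all `d ≥ 1`, with
`∫ f(0)^(2k) dμ < ∞` for one `k ≥ 1`. Let `M_n` be the conditional expectation of `f(0)^n` given the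
translation invariant sets, and `m = M_2` the local mass.

The theorem: (1) `∫_A |∇ p(f)|² ≤ k² ∫_A p(f)²` for all polynomials `p` of degree at most `k` and all
invariant sets `A`; equivalently (2) almost surely the matrix `(k² - ij/(i+j-1)) M_{i+j}`,
`0 ≤ i, j ≤ k`, is positive semidefinite. Explicit consequences: (3) `M_{2j+2} ≥ (2j+1)/(j+1) m M_{2j}`
for `j < k`, with equality for plane waves; (4) if `m > 0`, the conditional expectation `c_j` of the
Chebyshev polynomial `T_{2j}(f(0)/√(2m))` is nonnegative for `2 ≤ j ≤ k`, and `c_j ≥ (2j/9) c_2` for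
`3 ≤ j ≤ k`; (5) if `m > 0`, `m M_4 ≥ (3/2) m³ + (9/8) M_3²`, i.e. the kurtosis is at least
`3/2 + 9/8 skewness²`; (6) `m M_6 ≥ (10/9) M_4²`.

Idea of the proof. A stationary wave obeys Bernstein's inequality `E (∂_v f)^(2k) ≤ E f^(2k)`
(interpolation formula of M. Riesz). Hence `E (∂_v^n G)² ≤ C k^(2n)` for every polynomial `G = p(f)` of
degree `k`, so that the spectral measure of the stationary field `G` (theorem of Bochner) is
supported in the ball of radius `k`, whence (1). Integration by parts gives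
`E |∇ p(f)|² = E [f ∫_0^f p'²]`, a linear functional of the moments.
-/

set_option autoImplicit false
open MeasureTheory Filter Topology
open scoped ContDiff ENNReal

namespace Pool.Agent.Results.MP_4fa179_mp.MomentMatrix

noncomputable section

/-- the Laplacian `∑ ∂_i²` of `ℝ^d` -/
def laplacian {d : ℕ} (f : EuclideanSpace ℝ (Fin d) → ℝ) (y : EuclideanSpace ℝ (Fin d)) : ℝ :=
  ∑ i, fderiv ℝ (fun z => fderiv ℝ f z (EuclideanSpace.single i 1)) y (EuclideanSpace.single i 1)

/-- The space of all smooth `f` on `ℝ^d` with `Δf = -f`. Its σ-algebra is generated by the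
evaluations `f ↦ f y`. -/
abbrev Wave (d : ℕ) : Type :=
  {f : EuclideanSpace ℝ (Fin d) → ℝ // ContDiff ℝ ∞ f ∧ ∀ y, laplacian f y = -f y}

/-- the translate `y ↦ f (y + x)` -/
def translate {d : ℕ} (x : EuclideanSpace ℝ (Fin d)) (f : Wave d) : Wave d :=
  ⟨fun y => f.1 (y + x), (Pool.Agent.Y139.SW.sh x f).2⟩

/-- the σ-algebra of the translation invariant measurable sets -/
@[reducible] def invariantSets (d : ℕ) : MeasurableSpace (Wave d) where
  MeasurableSet' A := MeasurableSet A ∧ ∀ x, translate x ⁻¹' A = A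
  measurableSet_empty := ⟨MeasurableSet.empty, fun _ => Set.preimage_empty⟩
  measurableSet_compl A hA := ⟨hA.1.compl, fun x => by rw [Set.preimage_compl, hA.2 x]⟩
  measurableSet_iUnion A hA := ⟨MeasurableSet.iUnion fun i => (hA i).1, fun x => by
    rw [Set.preimage_iUnion]
    exact Set.iUnion_congr fun i => (hA i).2 x⟩

/-- the value at the origin -/
def val {d : ℕ} (f : Wave d) : ℝ := f.1 0

/-- `|∇f(0)|²` -/
def gradSq {d : ℕ} (f : Wave d) : ℝ := ∑ i, fderiv ℝ f.1 0 (EuclideanSpace.single i 1) ^ 2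

/-- the conditional moment: the conditional expectation of `f(0)^n` given the translation
invariant sets -/
def moment {d : ℕ} (μ : Measure (Wave d)) (n : ℕ) : Wave d → ℝ :=
  μ[fun f => val f ^ n | invariantSets d]

/-- the local mass -/
def mass {d : ℕ} (μ : Measure (Wave d)) : Wave d → ℝ := moment μ 2

/-- the conditional expectation of `T_{2j}(f(0) / √(2m))`, where `T_{2j}` is the Chebyshev
polynomial and `m` the local mass (used where `m > 0`) -/
def chebyshevMoment {d : ℕ} (μ : Measure (Wave d)) (j : ℕ) (f : Wave d) : ℝ :=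
  ∑ n ∈ Finset.range (2 * j + 1),
    (Polynomial.Chebyshev.T ℝ (2 * (j : ℤ))).coeff n * (moment μ n f / √(2 * mass μ f) ^ n)

/-- the quadratic form `∑ c_i c_j (k² - ij/(i+j-1)) M_{i+j}` of the moment matrix -/
def momentForm {d : ℕ} (μ : Measure (Wave d)) (k : ℕ) (c : Fin (k + 1) → ℝ) (f : Wave d) : ℝ :=
  ∑ i : Fin (k + 1), ∑ j : Fin (k + 1), c i * c j *
    ((k : ℝ) ^ 2 - (i : ℕ) * (j : ℕ) / (((i : ℕ) : ℝ) + (j : ℕ) - 1)) * moment μ (i + j) f

/-- `p(f)²` at the origin -/
def polySq {d : ℕ} (p : Polynomial ℝ) (f : Wave d) : ℝ := p.eval (val f) ^ 2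

/-- `|∇ p(f)|² = p'(f)² |∇f|²` at the origin -/
def polyGradSq {d : ℕ} (p : Polynomial ℝ) (f : Wave d) : ℝ :=
  p.derivative.eval (val f) ^ 2 * gradSq f

/-- **Polynomials of a stationary wave in `ℝ^d`, and its moment matrix.** -/
theorem result {d : ℕ} (hd : 1 ≤ d) (μ : Measure (Wave d)) [hP : IsProbabilityMeasure μ]
    (hμ : ∀ x, μ.map (translate x) = μ) {k : ℕ} (hk : 1 ≤ k)
    (hint : Integrable (fun f => val f ^ (2 * k)) μ) :
    -- (1) polynomials of a wave
    (∀ p : Polynomial ℝ, p.natDegree ≤ k → ∀ A, MeasurableSet[invariantSets d] A →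
      (Integrable (polyGradSq p) μ ∧ Integrable (polySq p) μ) ∧
      ∫ f in A, polyGradSq p f ∂μ ≤ (k : ℝ) ^ 2 * ∫ f in A, polySq p f ∂μ) ∧
    -- (2) the moment matrix
    (∀ᵐ f ∂μ, ∀ c, 0 ≤ momentForm μ k c f) ∧
    -- (3) consecutive even moments
    (∀ᵐ f ∂μ, ∀ j, j < k → (2 * (j : ℝ) + 1) / ((j : ℝ) + 1) * (mass μ f * moment μ (2 * j) f) ≤
      moment μ (2 * (j + 1)) f) ∧
    -- (4) Chebyshev polynomials
    (∀ᵐ f ∂μ, 0 < mass μ f → (∀ j, 2 ≤ j → j ≤ k → 0 ≤ chebyshevMoment μ j f) ∧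
      ∀ j, 3 ≤ j → j ≤ k →
        2 * (j : ℝ) / 9 * chebyshevMoment μ 2 f ≤ chebyshevMoment μ j f) ∧
    -- (5) skewness and kurtosis
    (2 ≤ k → ∀ᵐ f ∂μ, 0 < mass μ f →
      3 / 2 * mass μ f ^ 3 + 9 / 8 * moment μ 3 f ^ 2 ≤ mass μ f * moment μ 4 f) ∧
    -- (6) the sixth moment
    (3 ≤ k → ∀ᵐ f ∂μ, 10 / 9 * moment μ 4 f ^ 2 ≤ mass μ f * moment μ 6 f) := by
  obtain ⟨h1, h2, h3, h4, h5⟩ := Pool.Agent.W2helper14.EM.final hd μ hP hμ k hk hint
  obtain ⟨g1, g2, g3, g4, g5⟩ := Pool.Agent.W2helper14.EM.final2 hd μ hP hμ k hk hint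
  exact ⟨h5, g1, h1, h2, g2, g3⟩

end

end Pool.Agent.Results.MP_4fa179_mp.MomentMatrix
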