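import Pool.Agent.W2helper36.EM.V

/-!
# Nodal and level lines of the Benjamini–Schramm limits of eigenfunctions in dimension 2
(MP_4fa179_mp)

Every Benjamini–Schramm limit of Laplace eigenfunctions of a compact Riemannian surface, rescaled to
eigenvalue `1`, is a translation invariant law on the space of smooth solutions of `Δf + f = 0` on
`ℝ²`. By the coarea formula `(2ε)⁻¹ E (|∇f(0)|; |f(0)| < ε)` is the mean over `|t| < ε` of the
expected length per unit area of the level line `{f = t}`; its lower limit for `ε → 0` is the (lower)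
nodal length density. The theorem: for all these laws with `E f(0)² < ∞` the density is at least
`(1/π) P(f ≠ 0)`, with equality exactly for random plane waves `a cos (⟨w, x⟩ + φ)`. (For the random
wave of Berry's conjecture the density is `1 / (2 √2) = 0.354 > 1/π = 0.318`.) It comes with a
remainder term and with an inequality for the level lines between any two levels,
`E min((|f| - a)₊, b - a) ≤ E (|∇f| arctan (|∇f|/|f|); a < |f| < b)`.

Idea of the proof. With `f = √P cos φ`, `|∇f| = √P sin φ` (`f > 0`) the divergence of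
`φ ∇f / |∇f| + ¼ P^{-1} (1 - φ²/sin² φ) ∇P` is `-1` plus a nonpositive multiple of `|∇P|²`; here one
uses `|∇f|² ΔP + 2 f ∇f·∇P = |∇P|²`, true in the plane. Across the nodal line the normal component
jumps by `π`. The proof regularises this with a kernel in the level and with `P + ε²`.
-/

set_option autoImplicit false
open MeasureTheory Filter Topology
open scoped ContDiff ENNReal

namespace Pool.Agent.Results.MP_4fa179_mp.NodalLength

noncomputable section

/-- the Laplacian `∑ ∂_i²` of `ℝ²` -/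
def laplacian (f : EuclideanSpace ℝ (Fin 2) → ℝ) (y : EuclideanSpace ℝ (Fin 2)) : ℝ :=
  ∑ i, fderiv ℝ (fun z => fderiv ℝ f z (EuclideanSpace.single i 1)) y (EuclideanSpace.single i 1)

/-- The space of all smooth `f` on `ℝ²` with `Δf = -f`. Its σ-algebra is generated by the
evaluations `f ↦ f y`. -/
abbrev Wave : Type :=
  {f : EuclideanSpace ℝ (Fin 2) → ℝ // ContDiff ℝ ∞ f ∧ ∀ y, laplacian f y = -f y}

/-- the translate `y ↦ f (y + x)` -/
def translate (x : EuclideanSpace ℝ (Fin 2)) (f : Wave) : Wave :=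
  ⟨fun y => f.1 (y + x), (Pool.Agent.Y139.SW.sh x f).2⟩

/-- the value at the origin -/
def val (f : Wave) : ℝ := f.1 0

/-- `|∇f(0)|` -/
def grad (f : Wave) : ℝ := √(∑ i, fderiv ℝ f.1 0 (EuclideanSpace.single i 1) ^ 2)

/-- the energy density `P = f² + |∇f|²` at `y` -/
def energy (f : EuclideanSpace ℝ (Fin 2) → ℝ) (y : EuclideanSpace ℝ (Fin 2)) : ℝ :=
  f y ^ 2 + ∑ i, fderiv ℝ f y (EuclideanSpace.single i 1) ^ 2

/-- the excess `|f| |∇P|² / (6 P^{5/2})` at the origin -/
def excess (f : Wave) : ℝ := |val f| *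
  (∑ i, fderiv ℝ (energy f.1) 0 (EuclideanSpace.single i 1) ^ 2) / (6 * √(energy f.1 0) ^ 5)

/-- the waves which do not vanish identically -/
def nonzero : Set Wave := {f | ∃ y, f.1 y ≠ 0}

/-- the lower nodal length density `liminf_{ε → 0} (2ε)⁻¹ E (|∇f(0)|; |f(0)| < ε)` -/
def nodalDensity (μ : Measure Wave) : ℝ≥0∞ :=
  liminf (fun ε : ℝ => ENNReal.ofReal ((2 * ε)⁻¹ * ∫ f in {f | |val f| < ε}, grad f ∂μ)) (𝓝[>] 0)

/-- `f` is a plane wave `a cos (⟨w, y⟩ + φ)` with `|w| = 1` -/
def IsPlaneWave (a : ℝ) (f : Wave) : Prop :=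
  ∃ (w : EuclideanSpace ℝ (Fin 2)) (φ : ℝ), ‖w‖ = 1 ∧
    ∀ y, f.1 y = a * Real.cos (inner ℝ w y + φ)

/-- **Nodal and level lines of stationary waves in the plane.** -/
theorem result (μ : Measure Wave) [hP : IsProbabilityMeasure μ]
    (hμ : ∀ x, μ.map (translate x) = μ) (h : Integrable (fun f => val f ^ 2) μ) :
    (∀ a b : ℝ, 0 ≤ a → a < b →
      Integrable (fun f => min (max (|val f| - a) 0) (b - a) * (1 + excess f)) μ ∧
      ∫ f, min (max (|val f| - a) 0) (b - a) * (1 + excess f) ∂μ ≤
        ∫ f in {f | a < |val f| ∧ |val f| < b}, grad f * Real.arctan (grad f / |val f|) ∂μ) ∧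
    ∫⁻ f in nonzero, ENNReal.ofReal (1 / Real.pi * (1 + excess f)) ∂μ ≤ nodalDensity μ ∧
    (nodalDensity μ = ENNReal.ofReal (1 / Real.pi * μ.real nonzero) ↔
      ∀ᵐ f ∂μ, ∃ a, IsPlaneWave a f) := by
  exact Pool.Agent.W2helper36.EM.final2 μ hP hμ h

end

end Pool.Agent.Results.MP_4fa179_mp.NodalLength
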